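import Pool.Agent.H23.GLM.Defs

/-!
# Definitions for the local inequality
-/

set_option autoImplicit false

open Complex

namespace Pool.Agent.H26.LQ

open Pool.Agent.H23.GLM

open scoped Classical in
/-- The contribution of `ρ = β + iγ` to the displacement of the zeros of `g` at distance less than
`h` from height `t`: the order of the zero `ρ` times `max(β - 1/2, 0)` if `|γ - t| < h`. -/
noncomputable def locTerm (g : ℂ → ℂ) (h t : ℝ) (ρ : ℂ) : ℝ :=
  if |ρ.im - t| < h then (analyticOrderNatAt g ρ : ℝ) * max (ρ.re - 1 / 2) 0 else 0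

/-- The displacement of the zeros of `g` near height `t`: the sum of `β - 1/2` over the zeros
`ρ = β + iγ` of `g` with `β > 1/2` and `|γ - t| < h`, counted with multiplicity. -/
noncomputable def locDisp (g : ℂ → ℂ) (h t : ℝ) : ℝ := ∑' ρ : ℂ, locTerm g h t ρ

variable {m : ℕ}

/-- For every `ε > 0` the displacement of the zeros near height `t` is at most `ε log X` if `X` is
large. -/
def SmallLocDisp (S : Set (LData m)) (h : ℝ) : Prop :=
  ∀ ε : ℝ, 0 < ε → ∃ K : ℝ, ∀ π ∈ S, ∀ t : ℝ, K ≤ π.X t →
    locDisp π.L h t ≤ ε * Real.log (π.X t)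

end Pool.Agent.H26.LQ
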