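import Pool.Agent.H26.LQ.Main
import Pool.Agent.H26.LQ.Stmt
import Pool.Agent.H26.ZQ.App

/-! The function `f ∘ zm κ`. -/

set_option autoImplicit false

open MeasureTheory Set Filter Topology Complex Metric

namespace Pool.Agent.H26.LQ

open Pool.Agent.H26.ML Pool.Agent.H26.MQ Pool.Agent.H26.ZQ Pool.Agent.H23.GLM
open Pool.Agent.H23.GLH Pool.Agent.H23.DZ

lemma zm_scale (κ : ℝ) (hκ : 0 < κ) (w : ℂ) : zm κ w = (2 / κ : ℝ) * zm 2 w := by
  unfold zm
  have : (κ : ℂ) ≠ 0 := by exact_mod_cast hκ.ne'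
  push_cast
  field_simp

lemma zm_im_le (hZM2 : T_ZM2) {κ : ℝ} (hκ : 4 ≤ κ) {w : ℂ} (hw : 0 ≤ w.re) :
    |(zm κ w).im| ≤ 1 := by
  have h1 := ((hZM2 κ w (by linarith)).1 hw).2.1
  refine h1.trans ?_
  rw [div_le_one (by positivity)]
  linarith [Real.pi_le_four]

/-- On the disc of radius `1/2` the values have real part at least `-1/4`. -/
lemma zm_re_ge (hZM2 : T_ZM2) (hZM4 : T_ZM4) {κ : ℝ} (hκ : 4 ≤ κ) {w : ℂ} (hw : ‖w‖ ≤ 1 / 2) :
    -(1 / 4) ≤ (zm κ w).re := by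
  rcases le_or_gt 0 w.re with h0 | h0
  · have := ((hZM2 κ w (by linarith)).1 h0).1
    linarith
  · set w' : ℂ := -(starRingEnd ℂ) w with hw'
    have h1 : 0 ≤ w'.re := by rw [hw']; simp; linarith
    have h2 : ‖w'‖ ≤ 1 / 2 := by rw [hw', norm_neg, RCLike.norm_conj]; exact hw
    obtain ⟨h3, h4, _, _⟩ := hZM4 2 w' (by norm_num) h2 h1
    have h5 : -(starRingEnd ℂ) w' = w := by rw [hw']; simp
    rw [h5] at h3
    rw [zm_scale κ (by linarith), Complex.re_ofReal_mul, h3]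
    have h6 : w'.re ≤ 1 / 2 := (Complex.re_le_norm w').trans h2
    have h7 : (-(starRingEnd ℂ) (zm 2 w')).re = -(zm 2 w').re := by simp
    rw [h7]
    have h8 : 2 / κ ≤ 1 / 2 := by
      rw [div_le_div_iff₀ (by linarith) (by norm_num)]
      linarith
    have h9 : 0 < 2 / κ := by positivity
    nlinarith

variable {A σ Λ κ : ℝ} {k : ℕ} {f : ℂ → ℂ}

/-- The hypotheses of the main inequality for `f ∘ zm κ`. -/
theorem loc0_of_loc (hZM1 : T_ZM1) (hZM2 : T_ZM2) (hZM4 : T_ZM4) (hZM5 : T_ZM5) (hA : 1 ≤ A)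
    (hΛ : 0 ≤ Λ) (hσ : 0 < σ) (hκ : 4 ≤ κ) (hl : Loc A σ k Λ f) :
    Loc0 (A * 2 ^ k) (Real.cosh (κ * σ)) Λ (fun w => f (zm κ w)) := by
  have hκ0 : 0 < κ := by linarith
  obtain ⟨hz1, hz2⟩ := hZM1 κ hκ0
  obtain ⟨hf1, hf2, _⟩ := hZM5 κ σ hκ0 hσ
  have hA0 : 0 < A := by linarith
  have hpow : ∀ w : ℂ, 0 ≤ w.re → (1 + |(zm κ w).im|) ^ k ≤ 2 ^ k := by
    intro w hw
    have h1 := zm_im_le hZM2 hκ hw
    have h2 := abs_nonneg (zm κ w).im
    gcongr
    linarith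
  have hcomp : ∀ w : ℂ, w ∈ {w : ℂ | 0 < w.re} ∪ ball 0 1 → -(1 / 4) ≤ (zm κ w).re →
      AnalyticAt ℂ (fun w => f (zm κ w)) w := by
    intro w hw hre
    exact (hl.an _ hre).fun_comp (f := zm κ) (hz2 w hw)
  refine ⟨⟨?_, ?_, ?_, ?_⟩, ?_, ?_, ?_⟩
  · intro w hw
    have hw' : 0 < w.re := hw
    refine hcomp w (Or.inl hw) ?_
    have := ((hZM2 κ w hκ0).2 hw').1
    linarith
  · refine hl.an.continuousOn.comp hz1 fun w hw => ?_
    have := ((hZM2 κ w hκ0).1 hw).1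
    show -(1 / 4) ≤ (zm κ w).re
    linarith
  · intro w hw
    have h0 := ((hZM2 κ w hκ0).1 hw).1
    refine (hl.grow (zm κ w) (by linarith)).trans ?_
    have h1 := hpow w hw
    calc A * Real.exp Λ * (1 + |(zm κ w).im|) ^ k ≤ A * Real.exp Λ * 2 ^ k := by gcongr
      _ = _ := by ring
  · have hcount := zeros_countable (convex_halfSpace_re_ge (-(1 / 4)))
      (isClosed_le continuous_const Complex.continuous_re) hl.an
      (x := (σ : ℂ)) (by show -(1 / 4) ≤ (σ : ℂ).re; simp; linarith) (hl.ne_far (by simp))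
    filter_upwards [hf2 _ hcount] with u hu h0
    refine hu ⟨?_, h0⟩
    have := ((hZM2 κ (u * I) hκ0).1 (by simp)).1
    show -(1 / 4) ≤ (zm κ (u * I)).re
    linarith
  · intro w hw
    rw [mem_ball, dist_zero_right] at hw
    refine hcomp w (Or.inr (by rw [mem_ball, dist_zero_right]; linarith)) ?_
    exact zm_re_ge hZM2 hZM4 hκ hw.le
  · intro x y hx hx4 hy
    set w : ℂ := x + y * I with hw
    have hwre : w.re = x := by simp [hw]
    have hwim : w.im = y := by simp [hw]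
    have hwn : ‖w‖ ≤ 1 / 2 := by
      refine (Complex.norm_le_abs_re_add_abs_im w).trans ?_
      rw [hwre, hwim, abs_of_pos hx]
      linarith
    obtain ⟨h1, h2, _, _⟩ := hZM4 κ w (by linarith) hwn (by rw [hwre]; exact hx.le)
    have e1 : -(starRingEnd ℂ) w = (-x + y * I : ℂ) := by
      rw [hw]
      apply Complex.ext <;> simp
    rw [e1] at h1
    have hX0 := ((hZM2 κ w hκ0).2 (by rw [hwre]; exact hx)).1
    set X := (zm κ w).re with hX
    set Y := (zm κ w).im with hY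
    have hXx : X ≤ x := by rw [← hwre]; exact h2
    have e2 : zm κ (-x + y * I) = -(X : ℂ) + Y * I := by
      rw [h1]
      apply Complex.ext <;> simp [hX, hY]
    have e3 : zm κ w = (X : ℂ) + Y * I := by
      apply Complex.ext <;> simp [hX, hY]
    show ‖f (zm κ (-x + y * I))‖ ≤ A * 2 ^ k * Real.exp (x * Λ) * ‖f (zm κ w)‖
    rw [e2]
    have hR := hl.refl X Y hX0 (by linarith)
    rw [← e3] at hR
    refine hR.trans ?_
    have hp := hpow w (by rw [hwre]; exact hx.le)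
    have hn := norm_nonneg (f (zm κ w))
    have h3 : Real.exp (X * Λ) ≤ Real.exp (x * Λ) := by
      apply Real.exp_le_exp.mpr
      gcongr
    calc A * Real.exp (X * Λ) * (1 + |(zm κ w).im|) ^ k * ‖f (zm κ w)‖ ≤
          A * Real.exp (x * Λ) * 2 ^ k * ‖f (zm κ w)‖ := by gcongr
      _ = _ := by ring
  · intro w hw
    have h1 : Real.cosh (κ * σ) ≤ ‖w‖ := hw.trans (Complex.re_le_norm w)
    have h0 : 0 ≤ w.re := (Real.cosh_pos _).le.trans hw
    have h2 := hl.far (zm κ w) (hf1 w h0 h1)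
    refine h2.trans ?_
    have h3 : (1 : ℝ) ≤ 2 ^ k := one_le_pow₀ (by norm_num)
    have h4 := norm_nonneg (f (zm κ w))
    show A * ‖f (zm κ w)‖ ≤ A * 2 ^ k * ‖f (zm κ w)‖
    gcongr
    nlinarith

end Pool.Agent.H26.LQ
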