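import Pool.Agent.H26.LQ.App

/-! The displacement of the zeros near height `t` bounds the mean. -/

set_option autoImplicit false

open MeasureTheory Set Filter Topology Complex Metric

namespace Pool.Agent.H26.LQ

open Pool.Agent.H26.ML Pool.Agent.H26.MQ Pool.Agent.H26.ZQ Pool.Agent.H23.GLM
open Pool.Agent.H23.GLH Pool.Agent.H23.DZ

variable {m : ℕ}

lemma locTerm_nonneg (g : ℂ → ℂ) (h t : ℝ) (ρ : ℂ) : 0 ≤ locTerm g h t ρ := by
  unfold locTerm
  have : 0 ≤ max (ρ.re - 1 / 2) 0 := le_max_right _ _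
  split_ifs
  · positivity
  · exact le_rfl

lemma locTerm_mono {g : ℂ → ℂ} {h₁ h₂ t : ℝ} (h : h₁ ≤ h₂) (ρ : ℂ) :
    locTerm g h₁ t ρ ≤ locTerm g h₂ t ρ := by
  unfold locTerm
  have h0 : 0 ≤ max (ρ.re - 1 / 2) 0 := le_max_right _ _
  by_cases h1 : |ρ.im - t| < h₁
  · rw [if_pos h1, if_pos (h1.trans_le h)]
  · rw [if_neg h1]
    split_ifs
    · positivity
    · exact le_rfl

/-- Comparison with the global displacement. -/
lemma locTerm_le {A σ Λ t h : ℝ} {π : LData m} (hA : 1 ≤ A) (hσ : 0 < σ)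
    (hl : Loc A σ m Λ (fun z => π.F (1 / 2 + t * I + z))) (ρ : ℂ) :
    locTerm π.L h t ρ ≤ (1 + σ ^ 2 + h ^ 2) * dispTerm π.L t ρ := by
  have hd := dispTerm_nonneg π.L t ρ
  have hC : 0 ≤ 1 + σ ^ 2 + h ^ 2 := by positivity
  unfold locTerm
  by_cases h1 : |ρ.im - t| < h
  swap
  · rw [if_neg h1]; positivity
  rw [if_pos h1]
  rcases le_or_gt ρ.re (1 / 2) with h2 | h2
  · rw [max_eq_right (by linarith), mul_zero]; positivity
  by_cases h3 : analyticOrderNatAt π.L ρ = 0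
  · rw [h3, Nat.cast_zero, zero_mul]; positivity
  have h4 : analyticOrderNatAt π.F ρ ≠ 0 := by
    have := order_L_le_F π (s := ρ) (by linarith)
    omega
  have h5 : π.F ρ = 0 := by
    by_contra hne
    apply h4
    have ha : AnalyticAt ℂ π.F ρ := F_analytic π ρ (by show 0 < ρ.re; linarith)
    rw [analyticOrderNatAt, ha.analyticOrderAt_eq_zero.mpr hne]
    rfl
  have h6 : ρ.re - 1 / 2 < σ := by
    by_contra hcon
    push Not at hcon
    have h7 := hl.ne_far (z := ρ - (1 / 2 + t * I)) (by simp; linarith)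
    apply h7
    show π.F (1 / 2 + t * I + (ρ - (1 / 2 + t * I))) = 0
    rw [add_sub_cancel]
    exact h5
  have h7 : 1 + ‖ρ - (1 / 2 + t * I)‖ ^ 2 ≤ 1 + σ ^ 2 + h ^ 2 := by
    rw [← Complex.normSq_eq_norm_sq, Complex.normSq_apply]
    have e1 : (ρ - (1 / 2 + t * I)).re = ρ.re - 1 / 2 := by simp
    have e2 : (ρ - (1 / 2 + t * I)).im = ρ.im - t := by simp
    rw [e1, e2]
    have h8 : (ρ.re - 1 / 2) * (ρ.re - 1 / 2) ≤ σ ^ 2 := by nlinarith
    have h9 : (ρ.im - t) * (ρ.im - t) ≤ h ^ 2 := by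
      rw [← sq, ← sq_abs]
      have := abs_nonneg (ρ.im - t)
      gcongr
    linarith
  unfold dispTerm
  rw [max_eq_left (by linarith)]
  have h8 : 0 < 1 + ‖ρ - (1 / 2 + t * I)‖ ^ 2 := by positivity
  have h9 : 0 ≤ ρ.re - 1 / 2 := by linarith
  have h10 : ρ.re - 1 / 2 ≤ (1 + σ ^ 2 + h ^ 2) *
      ((ρ.re - 1 / 2) / (1 + ‖ρ - (1 / 2 + t * I)‖ ^ 2)) := by
    rw [mul_div_assoc', le_div_iff₀ h8, mul_comm]
    gcongr
  calc (analyticOrderNatAt π.L ρ : ℝ) * (ρ.re - 1 / 2) ≤ (analyticOrderNatAt π.L ρ : ℝ) *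
        ((1 + σ ^ 2 + h ^ 2) * ((ρ.re - 1 / 2) / (1 + ‖ρ - (1 / 2 + t * I)‖ ^ 2))) := by gcongr
    _ = _ := by ring

/-- The displacement near height `t` bounds the mean of `log |g|`. -/
lemma mean_le_locDisp (hZM1 : T_ZM1) (hZM2 : T_ZM2) (hZM4 : T_ZM4) (hZM5 : T_ZM5) (hE0 : T_E0)
    (hL20 : T_L20) (hLG : T_LG) {A σ κ c C₁ Λ t B : ℝ} {π : LData m} (hA : 1 ≤ A) (hΛ : 0 ≤ Λ)
    (hσ : 0 < σ) (hκ : 4 ≤ κ) (hc : Real.cosh (κ * σ) < c) (hC₁ : 0 ≤ C₁)
    (hGR : ∀ z : ℂ, 0 < z.re → z.re ≤ Real.cosh (κ * σ) →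
      Real.log (‖(c : ℂ) + z‖ / ‖(c : ℂ) - z‖) ≤ C₁ * (z.re / (1 + ‖z‖ ^ 2)))
    (hl : Loc A σ m Λ (fun z => π.F (1 / 2 + t * I + z)))
    (hs : Summable (locTerm π.L (Real.pi / (2 * κ)) t))
    (hB : Real.log ‖π.F (1 / 2 + t * I + zm κ c)‖ ≤ B) :
    Real.pi⁻¹ * (∫ u, poi c u * bz (fun w => π.F (1 / 2 + t * I + zm κ w)) u) ≤
      C₁ * (κ * Real.cosh (κ * σ)) * locDisp π.L (Real.pi / (2 * κ)) t + B := by
  classical
  have hπ := Real.pi_pos
  have hκ0 : 0 < κ := by linarith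
  have hch : 1 ≤ Real.cosh (κ * σ) := Real.one_le_cosh _
  have hc0 : 0 < c := by linarith
  set f : ℂ → ℂ := fun z => π.F (1 / 2 + t * I + z) with hf
  set g : ℂ → ℂ := fun w => f (zm κ w) with hg
  have h0 := loc0_of_loc hZM1 hZM2 hZM4 hZM5 hA hΛ hσ hκ hl
  have hA' : 1 ≤ A * 2 ^ m :=
    one_le_mul_of_one_le_of_one_le hA (one_le_pow₀ (by norm_num))
  have hE : 1 ≤ A * 2 ^ m * Real.exp Λ := one_le_E0 hA' hΛ
  obtain ⟨K, N, ω, hK, hlow, hfar⟩ := hLG (A * Real.exp Λ) σ κ m f (Loc.one_le_E hA hΛ) hσ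
    (by linarith) (hyp_of_loc hΛ hl hA)
  obtain ⟨B₀, δ₀, hδ₀, hsq⟩ := hL20 _ c (Real.cosh (κ * σ)) K N ω g hE hc0 (by linarith) hK
    h0.hb hlow hfar
  have hgc : g c ≠ 0 := h0.ne_far (by simp; linarith)
  obtain ⟨_, _, hf3⟩ := hZM5 κ σ hκ0 hσ
  set h := Real.pi / (2 * κ) with hh
  set G := κ * Real.cosh (κ * σ) with hG
  have hG0 : 0 ≤ G := by positivity
  have hT : ∀ Z : Finset ℂ, (∀ z ∈ Z, 0 < z.re) → ∑ z ∈ Z, (analyticOrderNatAt g z : ℝ) *
      Real.log (‖(c : ℂ) + z‖ / ‖(c : ℂ) - z‖) ≤ C₁ * G * locDisp π.L h t := by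
    intro Z hZ
    set φ : ℂ → ℂ := fun w => zm κ w + (1 / 2 + t * I) with hφ
    have hinj : ∀ a ∈ Z, ∀ b ∈ Z, φ a = φ b → a = b := by
      intro a ha b hb hab
      have h1 : zm κ a = zm κ b := by simpa [hφ] using hab
      rw [← ((hZM2 κ a hκ0).1 (hZ a ha).le).2.2, ← ((hZM2 κ b hκ0).1 (hZ b hb).le).2.2, h1]
    have h1 : ∑ z ∈ Z, (analyticOrderNatAt g z : ℝ) *
        Real.log (‖(c : ℂ) + z‖ / ‖(c : ℂ) - z‖) ≤
        C₁ * G * ∑ ρ ∈ Z.image φ, locTerm π.L h t ρ := by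
      rw [Finset.sum_image hinj, Finset.mul_sum]
      refine Finset.sum_le_sum fun w hw => ?_
      have hw0 := hZ w hw
      obtain ⟨hx0, him, hder⟩ := (hZM2 κ w hκ0).2 hw0
      have hsinh := ((hZM2 κ w hκ0).1 hw0.le).2.2
      have hlt := locTerm_nonneg π.L h t (φ w)
      have hrhs : 0 ≤ C₁ * G * locTerm π.L h t (φ w) := by positivity
      by_cases hord0 : analyticOrderNatAt g w = 0
      · rw [hord0, Nat.cast_zero, zero_mul]; exact hrhs
      -- the point is a zero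
      have hgw : g w = 0 := by
        by_contra hne
        apply hord0
        rw [analyticOrderNatAt, (h0.hb.an w hw0).analyticOrderAt_eq_zero.mpr hne]
        rfl
      have hσx : (zm κ w).re ≤ σ := by
        by_contra hcon
        push Not at hcon
        exact hl.ne_far (z := zm κ w) hcon.le hgw
      have hord : analyticOrderNatAt g w = analyticOrderNatAt π.F (φ w) := by
        have ha : AnalyticAt ℂ (zm κ) w := (hZM1 κ hκ0).2 w (Or.inl hw0)
        have h2 := analyticOrderAt_comp_of_deriv_ne_zero (f := f) ha hder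
        have h3 : analyticOrderNatAt g w = analyticOrderNatAt f (zm κ w) := by
          rw [analyticOrderNatAt, analyticOrderNatAt, ← h2]
          rfl
        rw [h3]
        have h4 := order_shift π.F (1 / 2 + t * I) (φ w)
        rw [← h4]
        simp only [hφ, add_sub_cancel_right]
        congr 1
        funext v
        simp only [hf]
        congr 1
        ring
      have hre : (φ w).re - 1 / 2 = (zm κ w).re := by simp [hφ]
      have him2 : (φ w).im - t = (zm κ w).im := by simp [hφ]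
      have hFL := order_F_le_L π (s := φ w) (by linarith)
      obtain ⟨hf3a, hf3b⟩ := hf3 (zm κ w) hx0 hσx him
      rw [hsinh] at hf3a hf3b
      have h5 := hGR w hw0 ((Complex.re_le_norm w).trans hf3b)
      have h6 : w.re / (1 + ‖w‖ ^ 2) ≤ G * (zm κ w).re := by
        refine le_trans (div_le_self hw0.le ?_) hf3a
        have := sq_nonneg ‖w‖
        linarith
      have h7 : locTerm π.L h t (φ w) = (analyticOrderNatAt π.L (φ w) : ℝ) * (zm κ w).re := by
        unfold locTerm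
        rw [him2, if_pos him, hre, max_eq_left hx0.le]
      rw [h7, hord]
      have h8 : 0 ≤ G * (zm κ w).re := by positivity
      calc (analyticOrderNatAt π.F (φ w) : ℝ) * Real.log (‖(c : ℂ) + w‖ / ‖(c : ℂ) - w‖) ≤
          (analyticOrderNatAt π.F (φ w) : ℝ) * (C₁ * (w.re / (1 + ‖w‖ ^ 2))) := by gcongr
        _ ≤ (analyticOrderNatAt π.F (φ w) : ℝ) * (C₁ * (G * (zm κ w).re)) := by gcongr
        _ ≤ (analyticOrderNatAt π.L (φ w) : ℝ) * (C₁ * (G * (zm κ w).re)) := by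
            have h9 : 0 ≤ C₁ * (G * (zm κ w).re) := by positivity
            gcongr
        _ = _ := by ring
    refine h1.trans ?_
    have h2 : 0 ≤ C₁ * G := by positivity
    exact mul_le_mul_of_nonneg_left (hs.sum_le_tsum _ fun ρ _ => locTerm_nonneg _ _ _ _) h2
  have hfin := hE0 _ c _ B₀ δ₀ g hE hc0 h0.hb hgc hδ₀ hsq hT
  rw [← div_eq_inv_mul, div_le_iff₀ hπ]
  refine hfin.trans ?_
  rw [mul_comm Real.pi]
  have h9 : Real.log ‖g c‖ ≤ B := hB
  gcongr

end Pool.Agent.H26.LQ
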