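import Pool.Agent.H26.LQ.Ineq
import Pool.Agent.H26.ZQ.Crit

/-! The equivalences with the local displacement. -/

set_option autoImplicit false

open MeasureTheory Set Filter Topology Complex

namespace Pool.Agent.H26.LQ

open Pool.Agent.H26.ML Pool.Agent.H26.MQ Pool.Agent.H26.ZQ Pool.Agent.H23.GLM
open Pool.Agent.H23.GLH Pool.Agent.H23.DZ

variable {m : ℕ}

/-- Once the displacement is small the bound follows. -/
theorem glh_of_small {S : Set (LData m)} (hm : 1 ≤ m) {A : ℝ} (hA : 1 ≤ A)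
    {D : LData m → ℝ → ℝ} (hineq : ∀ π ∈ S, ∀ t : ℝ, 0 ≤ D π t ∧ ‖π.L (1 / 2 + t * I)‖ ≤
      Real.exp (A * Real.log (2 * π.X t) / Real.log (2 + Real.log (2 * π.X t) / (1 + D π t))))
    (h : ∀ ε : ℝ, 0 < ε → ∃ K : ℝ, ∀ π ∈ S, ∀ t : ℝ, K ≤ π.X t →
      D π t ≤ ε * Real.log (π.X t)) : GLH S := by
  rw [ML.glh_iff hm]
  intro ε hε
  have hl2 : 0 < Real.log 2 := Real.log_pos (by norm_num)
  set R := Real.exp (A / ε) with hR
  have hR0 : 0 < R := Real.exp_pos _
  obtain ⟨K, hK⟩ := h (1 / (2 * R)) (by positivity)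
  set K' := max (max K 1) (Real.exp (2 * R)) with hK'
  have hK'1 : 1 ≤ K' := (le_max_right K 1).trans (le_max_left _ _)
  refine ⟨max (2 ^ ε) (Real.exp (A * Real.log (2 * K') / Real.log 2)), fun π hπ t => ?_⟩
  obtain ⟨hD0, hL⟩ := hineq π hπ t
  have hX1 := π.one_le_X t
  have hX0 : 0 < π.X t := by linarith
  have hXε : 1 ≤ π.X t ^ ε := Real.one_le_rpow hX1 hε.le
  have hlX : 0 ≤ Real.log (π.X t) := Real.log_nonneg hX1
  have hl2X : 0 ≤ Real.log (2 * π.X t) := Real.log_nonneg (by linarith)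
  have hy0 : 0 ≤ Real.log (2 * π.X t) / (1 + D π t) := by positivity
  have hden : 0 < Real.log (2 + Real.log (2 * π.X t) / (1 + D π t)) :=
    Real.log_pos (by linarith)
  rcases lt_or_ge (π.X t) K' with hlt | hge
  · refine hL.trans ?_
    have h1 : A * Real.log (2 * π.X t) / Real.log (2 + Real.log (2 * π.X t) / (1 + D π t)) ≤
        A * Real.log (2 * K') / Real.log 2 := by
      have h2 : Real.log 2 ≤ Real.log (2 + Real.log (2 * π.X t) / (1 + D π t)) :=
        Real.log_le_log (by norm_num) (by linarith)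
      have h3 : Real.log (2 * π.X t) ≤ Real.log (2 * K') :=
        Real.log_le_log (by linarith) (by linarith)
      have h4 : 0 ≤ Real.log (2 * K') := Real.log_nonneg (by linarith)
      gcongr
    calc Real.exp _ ≤ Real.exp (A * Real.log (2 * K') / Real.log 2) := Real.exp_le_exp.mpr h1
      _ ≤ max (2 ^ ε) (Real.exp (A * Real.log (2 * K') / Real.log 2)) * 1 := by
          rw [mul_one]; exact le_max_right _ _
      _ ≤ _ := by gcongr
  · have hKX : K ≤ π.X t := ((le_max_left K 1).trans (le_max_left _ _)).trans hge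
    have hD := hK π hπ t hKX
    have hlX2 : 2 * R ≤ Real.log (π.X t) := by
      rw [Real.le_log_iff_exp_le hX0]
      exact (le_max_right _ _).trans hge
    have h1 : (1 + D π t) * R ≤ Real.log (2 * π.X t) := by
      have h2 : 1 / (2 * R) * Real.log (π.X t) * R = Real.log (π.X t) / 2 := by
        field_simp
      have h3 : D π t * R ≤ Real.log (π.X t) / 2 := by
        rw [← h2]; gcongr
      have h4 : Real.log (2 * π.X t) = Real.log 2 + Real.log (π.X t) :=
        Real.log_mul (by norm_num) hX0.ne'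
      rw [h4]
      nlinarith
    have h2 : R ≤ Real.log (2 * π.X t) / (1 + D π t) := by
      rw [le_div_iff₀ (by linarith)]
      linarith
    have h3 : A / ε ≤ Real.log (2 + Real.log (2 * π.X t) / (1 + D π t)) := by
      rw [Real.le_log_iff_exp_le (by linarith)]
      linarith
    have h4 : A * Real.log (2 * π.X t) / Real.log (2 + Real.log (2 * π.X t) / (1 + D π t)) ≤
        ε * Real.log (2 * π.X t) := by
      rw [div_le_iff₀ hden]
      rw [div_le_iff₀ hε] at h3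
      nlinarith
    refine hL.trans ((Real.exp_le_exp.mpr h4).trans ?_)
    have h5 : Real.exp (ε * Real.log (2 * π.X t)) = 2 ^ ε * π.X t ^ ε := by
      rw [← Real.mul_rpow (by norm_num) hX0.le, Real.rpow_def_of_pos (by positivity), mul_comm ε]
    rw [h5]
    have h6 : (2:ℝ) ^ ε ≤ max (2 ^ ε) (Real.exp (A * Real.log (2 * K') / Real.log 2)) :=
      le_max_left _ _
    gcongr

/-- **The local inequality, the mollified means and the equivalences.** -/
theorem final_of (hHE : T_HE) (hGR : T_GR) (hPB : T_PB) (hJP : T_JP) (hSG : T_SG) (hKT : T_KT)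
    (hZM1 : T_ZM1) (hZM2 : T_ZM2) (hZM4 : T_ZM4) (hZM5 : T_ZM5) (hP0 : T_P0) (hC0 : T_C0)
    (hK0 : T_K0) (hE0 : T_E0) (hL20 : T_L20) (hLG : T_LG) (m : ℕ) (S : Set (LData m))
    (hm : 1 ≤ m) (hM : Molteni S) (hF : FarBounds S) (h : ℝ) (hh : 0 < h) :
    (∃ A : ℝ, 1 ≤ A ∧ ∀ π ∈ S, ∀ t : ℝ, Summable (locTerm π.L h t) ∧
      locDisp π.L h t ≤ A * Real.log (2 * π.X t) ∧
      ‖π.L (1 / 2 + t * I)‖ ≤ Real.exp (A * Real.log (2 * π.X t) /
        Real.log (2 + Real.log (2 * π.X t) / (1 + locDisp π.L h t)))) ∧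
    ∃ c₀ : ℝ, 0 < c₀ ∧ ∀ c : ℝ, c₀ ≤ c →
      (∃ A : ℝ, 1 ≤ A ∧ ∀ π ∈ S, ∀ (t : ℝ) (M : ℂ → ℂ), Multiplier M →
        M (1 / 2 + c + t * I) ≠ 0 → locDisp π.L h t ≤
          A * (A + logMean (fun s => π.L s * M s) c t - Real.log ‖M (1 / 2 + c + t * I)‖)) ∧
      List.TFAE [
        GLH S,
        SmallLocDisp S h,
        SmallMeans S c,
        Mollifiable S c,
        ∀ R ε : ℝ, 0 < R → 0 < ε → LogMeans S R ε,
        ∀ ε : ℝ, 0 < ε → ∃ R : ℝ, 0 < R ∧ LogMeans S R (ε * min 1 R),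
        Mollified S] := by
  obtain ⟨c₀, hc₀, hg⟩ := disp_ineq hPB hJP hSG hKT hHE hGR hM hF
  obtain ⟨A₁, hA₁, hl⟩ := loc_ineq hPB hJP hGR hZM1 hZM2 hZM4 hZM5 hP0 hC0 hK0 hE0 hL20 hLG hM hF
    (by
      obtain ⟨A, hA, h1⟩ := hg c₀ le_rfl
      exact ⟨A, hA, fun π hπ t => ⟨(h1 π hπ t).1, (h1 π hπ t).2.1⟩⟩) hh
  refine ⟨⟨A₁, hA₁, fun π hπ t => ?_⟩, c₀, hc₀, fun c hc => ?_⟩
  · obtain ⟨h1, _, h2, h3⟩ := hl π hπ t
    exact ⟨h1, h2, h3⟩
  obtain ⟨A, hA, hgc⟩ := hg c hc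
  have hc0 : 0 < c := by linarith
  refine ⟨⟨A₁ * A, one_le_mul_of_one_le_of_one_le hA₁ hA, fun π hπ t M hMul hne => ?_⟩, ?_⟩
  · obtain ⟨_, h1, _, _⟩ := hl π hπ t
    have h2 := (hgc π hπ t).2.2.2.2.2 M hMul hne
    have h3 : 0 ≤ disp π.L t := tsum_nonneg fun ρ => dispTerm_nonneg _ _ _
    have h4 : A ≤ A₁ * A := le_mul_of_one_le_left (by linarith) hA₁
    calc locDisp π.L h t ≤ A₁ * disp π.L t := h1
      _ ≤ A₁ * (A * (A + logMean (fun s => π.L s * M s) c t -
            Real.log ‖M (1 / 2 + c + t * I)‖)) := by gcongr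
      _ = A₁ * A * (A + logMean (fun s => π.L s * M s) c t -
            Real.log ‖M (1 / 2 + c + t * I)‖) := by ring
      _ ≤ _ := by
        have h5 : 0 ≤ A₁ * A := by positivity
        refine mul_le_mul_of_nonneg_left ?_ h5
        linarith
  · have hT := mollifier_tfae m S hm hM hF
    tfae_have 1 ↔ 5 := hT.out 0 1
    tfae_have 1 ↔ 6 := hT.out 0 2
    tfae_have 1 ↔ 7 := hT.out 0 3
    tfae_have 1 → 3 := fun hG => smallMeans_of_glh hm hc0
      (fun π hπ t => (hgc π hπ t).2.2.2.1) hG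
    tfae_have 3 → 4 := mollifiable_of_smallMeans
    tfae_have 4 → 2 := fun hG => by
      have h1 := smallDisp_of_mollifiable hA (fun π hπ t => (hgc π hπ t).2.2.2.2.2) hG
      intro ε hε
      obtain ⟨K, hK⟩ := h1 (ε / A₁) (by positivity)
      refine ⟨K, fun π hπ t hX => ?_⟩
      obtain ⟨_, h2, _, _⟩ := hl π hπ t
      have h3 := hK π hπ t hX
      calc locDisp π.L h t ≤ A₁ * disp π.L t := h2
        _ ≤ A₁ * (ε / A₁ * Real.log (π.X t)) := by gcongr
        _ = _ := by field_simp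
    tfae_have 2 → 1 := fun hG => glh_of_small (D := fun π t => locDisp π.L h t) hm hA₁
      (fun π hπ t => ⟨tsum_nonneg fun ρ => locTerm_nonneg _ _ _ _, (hl π hπ t).2.2.2⟩) hG
    tfae_finish

end Pool.Agent.H26.LQ
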