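import Pool.Agent.H69.LQ.Lib

/-!
# Row DI: linear algebra
-/

set_option autoImplicit false

namespace Pool.Agent.H26.LQ

theorem di_aux (V F : Type) [AddCommGroup V] [Module ℝ V] [AddCommGroup F] [Module ℝ F]
    [Module.Finite ℝ V] [Module.Finite ℝ F] (h0 : Module.finrank ℝ V = Module.finrank ℝ F + 1)
    (lV : V →ₗ[ℝ] ℝ) (TV : V →ₗ[ℝ] F) (hker : ∀ v, lV v = 0 → TV v = 0 → v = 0) (e : F) :
    ∃ v, lV v = 0 ∧ TV v = e := by
  have h1 := LinearMap.finrank_range_add_finrank_ker lV
  have h2 : Module.finrank ℝ (LinearMap.range lV) ≤ 1 := by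
    have := Submodule.finrank_le (LinearMap.range lV)
    rwa [Module.finrank_self] at this
  have hinj : Function.Injective (TV.comp (LinearMap.ker lV).subtype) := by
    refine (injective_iff_map_eq_zero _).2 fun v hv => ?_
    exact Subtype.ext (hker v (LinearMap.mem_ker.1 v.2) hv)
  have h3 := LinearMap.finrank_le_finrank_of_injective hinj
  have h5 : Module.finrank ℝ (LinearMap.ker lV) = Module.finrank ℝ F := by omega
  obtain ⟨v, hv⟩ :=
    (LinearMap.injective_iff_surjective_of_finrank_eq_finrank h5).1 hinj e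
  exact ⟨v, LinearMap.mem_ker.1 v.2, hv⟩

open MeasureTheory Metric Set
open scoped ENNReal
open Pool.Agent.H85.LK (E adm lam Ann)
open Pool.Agent.H69.LQ

theorem pf_DI : T_DI := by
  intro N V l T hV hadd hsmul hker e
  have hfd : Module.Finite ℝ V := Module.finite_of_finrank_pos (by omega)
  have h4 : Module.finrank ℝ (E N) = N := finrank_euclideanSpace_fin
  obtain ⟨v, hv1, hv2⟩ := di_aux V (E N) (by rw [h4, hV])
    { toFun := fun v => l v
      map_add' := fun v w => (hadd v v.2 w w.2).1
      map_smul' := fun k v => (hsmul v v.2 k).1 }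
    { toFun := fun v => T v
      map_add' := fun v w => (hadd v v.2 w w.2).2
      map_smul' := fun k v => (hsmul v v.2 k).2 }
    (fun v h1 h2 => Subtype.ext (hker v v.2 h1 h2)) e
  exact ⟨v, v.2, hv1, hv2⟩

end Pool.Agent.H26.LQ
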