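import Pool.Agent.H26.ZQ.Defs
import Pool.Agent.H26.MQ.Defs

/-!
# The local inequality: definitions and module targets

The half strip `Re z > 0`, `|Im z| < π / (2 κ)` is mapped onto the right half plane by
`w = sinh (κ z)`; the inverse map is `zm κ`. A function `g` which is analytic in the right half plane,
bounded, and continuous up to the boundary is called `HB`.
-/

set_option autoImplicit false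

open MeasureTheory Set Filter Topology Metric

namespace Pool.Agent.H26.LQ

open Pool.Agent.H26.ML Pool.Agent.H26.MQ Pool.Agent.H26.ZQ

/-- Bounded analytic functions in the right half plane, continuous up to the boundary. -/
structure HB (E : ℝ) (g : ℂ → ℂ) : Prop where
  an : AnalyticOnNhd ℂ g {z | 0 < z.re}
  cont : ContinuousOn g {z | 0 ≤ z.re}
  bdd : ∀ z : ℂ, 0 ≤ z.re → ‖g z‖ ≤ E
  ne : ∀ᵐ u : ℝ, g (u * Complex.I) ≠ 0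

/-- The logarithm on the imaginary axis. -/
noncomputable def bz (g : ℂ → ℂ) (u : ℝ) : ℝ := Real.log ‖g (u * Complex.I)‖

/-- The hypotheses for the main inequality. -/
structure Loc0 (A σ Λ : ℝ) (g : ℂ → ℂ) : Prop where
  hb : HB (A * Real.exp Λ) g
  an : AnalyticOnNhd ℂ g (ball 0 (1 / 2))
  refl : ∀ x y : ℝ, 0 < x → x ≤ 1 / 4 → |y| ≤ 1 / 4 →
    ‖g (-x + y * Complex.I)‖ ≤ A * Real.exp (x * Λ) * ‖g (x + y * Complex.I)‖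
  far : ∀ z : ℂ, σ ≤ z.re → 1 ≤ A * ‖g z‖

/-- A square root of `w ^ 2 + 1`, continuous in `Re w ≥ 0`. -/
noncomputable def sq1 (w : ℂ) : ℂ := (w + Complex.I) ^ (1 / 2 : ℂ) * (w - Complex.I) ^ (1 / 2 : ℂ)

/-- The inverse of `z ↦ sinh (κ z)`. -/
noncomputable def zm (κ : ℝ) (w : ℂ) : ℂ := Complex.log (w + sq1 w) / κ

/-! ### Targets -/

/-- SQ1. Facts on the square root. -/
def T_SQ1 : Prop :=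
  (∀ w : ℂ, sq1 w ^ 2 = w ^ 2 + 1) ∧ ContinuousOn sq1 {w | 0 ≤ w.re} ∧
  AnalyticOnNhd ℂ sq1 ({w | 0 < w.re} ∪ ball 0 1) ∧ (∀ w : ℂ, 0 ≤ w.re → 0 ≤ (sq1 w).re) ∧
  (∀ w : ℂ, 0 < w.re → 0 < (sq1 w).re) ∧ (∀ w : ℂ, ‖w‖ < 1 → 0 < (sq1 w).re)

/-- ZM1. Regularity of `zm κ`. -/
def T_ZM1 : Prop := ∀ κ : ℝ, 0 < κ → ContinuousOn (zm κ) {w | 0 ≤ w.re} ∧
  AnalyticOnNhd ℂ (zm κ) ({w | 0 < w.re} ∪ ball 0 1)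

/-- ZM2. Range of `zm κ`. -/
def T_ZM2 : Prop := ∀ (κ : ℝ) (w : ℂ), 0 < κ →
  (0 ≤ w.re → 0 ≤ (zm κ w).re ∧ |(zm κ w).im| ≤ Real.pi / (2 * κ) ∧
    Complex.sinh (κ * zm κ w) = w) ∧
  (0 < w.re → 0 < (zm κ w).re ∧ |(zm κ w).im| < Real.pi / (2 * κ) ∧ deriv (zm κ) w ≠ 0)

/-- ZM3. The inverse property. -/
def T_ZM3 : Prop := ∀ (κ : ℝ) (z : ℂ), 0 < κ → 0 < z.re → |z.im| < Real.pi / (2 * κ) →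
  0 < (Complex.sinh (κ * z)).re ∧ zm κ (Complex.sinh (κ * z)) = z

/-- ZM4. Near zero. -/
def T_ZM4 : Prop := ∀ (κ : ℝ) (w : ℂ), 2 ≤ κ → ‖w‖ ≤ 1 / 2 → 0 ≤ w.re →
  zm κ (-(starRingEnd ℂ) w) = -(starRingEnd ℂ) (zm κ w) ∧ (zm κ w).re ≤ w.re ∧
  |(zm κ w).im| ≤ 1 ∧ zm κ 0 = 0

/-- ZM5. Far away and at the boundary. -/
def T_ZM5 : Prop := ∀ (κ σ : ℝ), 0 < κ → 0 < σ →
  (∀ w : ℂ, 0 ≤ w.re → Real.cosh (κ * σ) ≤ ‖w‖ → σ ≤ (zm κ w).re) ∧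
  (∀ s : Set ℂ, s.Countable → ∀ᵐ u : ℝ, zm κ (u * Complex.I) ∉ s) ∧
  (∀ z : ℂ, 0 < z.re → z.re ≤ σ → |z.im| < Real.pi / (2 * κ) →
    (Complex.sinh (κ * z)).re ≤ κ * Real.cosh (κ * σ) * z.re ∧
      ‖Complex.sinh (κ * z)‖ ≤ Real.cosh (κ * σ))

/-- J0. Jensen's inequality in the half plane. -/
def T_J0 : Prop := ∀ (E c : ℝ) (g : ℂ → ℂ) (Z : Finset ℂ), 1 ≤ E → 0 < c → HB E g → g c ≠ 0 →
  (∀ z ∈ Z, 0 < z.re) → Integrable (fun u : ℝ => poi c u * bz g u) ∧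
    Real.pi * (∑ z ∈ Z, (analyticOrderNatAt g z : ℝ) *
      Real.log (‖(c : ℂ) + z‖ / ‖(c : ℂ) - z‖) + Real.log ‖g c‖) ≤ ∫ u : ℝ, poi c u * bz g u

/-- P0. The Poisson majorant. -/
def T_P0 : Prop := ∀ (E : ℝ) (g : ℂ → ℂ), 1 ≤ E → HB E g → (∃ z : ℂ, 0 < z.re ∧ g z ≠ 0) →
  Measurable (bz g) ∧ Integrable (fun u : ℝ => poi 1 u * bz g u) ∧
  ∀ x y : ℝ, 0 < x → g (x + y * Complex.I) ≠ 0 →
    Real.log ‖g (x + y * Complex.I)‖ ≤ UU 0 (bz g) x y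

/-- E0. The other inequality in the formula of Jensen. -/
def T_E0 : Prop := ∀ (E c T B δ₀ : ℝ) (g : ℂ → ℂ), 1 ≤ E → 0 < c → HB E g → g c ≠ 0 → 0 < δ₀ →
  (∀ δ : ℝ, 0 < δ → δ ≤ δ₀ → ∫⁻ u : ℝ,
    ENNReal.ofReal (poi c u * (max (-Real.log ‖g (zz c δ u)‖) 0) ^ 2) ≤ ENNReal.ofReal B) →
  (∀ Z : Finset ℂ, (∀ z ∈ Z, 0 < z.re) → ∑ z ∈ Z, (analyticOrderNatAt g z : ℝ) *
    Real.log (‖(c : ℂ) + z‖ / ‖(c : ℂ) - z‖) ≤ T) →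
  ∫ u : ℝ, poi c u * bz g u ≤ Real.pi * (T + Real.log ‖g c‖)

/-- L20. Square integrals over the circles. -/
def T_L20 : Prop := ∀ (E c W K : ℝ) (N : ℕ) (ω : Fin N → ℂ) (g : ℂ → ℂ), 1 ≤ E → 0 < c → 0 < W →
  0 ≤ K → HB E g →
  (∀ w : ℂ, 0 ≤ w.re → ‖w‖ ≤ W → Real.log ‖g w‖ < 0 →
    -K + ∑ j, Real.log ‖w - ω j‖ ≤ Real.log ‖g w‖) →
  (∀ w : ℂ, 0 ≤ w.re → W ≤ ‖w‖ → -K ≤ Real.log ‖g w‖) →
  ∃ B δ₀ : ℝ, 0 < δ₀ ∧ ∀ δ : ℝ, 0 < δ → δ ≤ δ₀ → ∫⁻ u : ℝ,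
    ENNReal.ofReal (poi c u * (max (-Real.log ‖g (zz c δ u)‖) 0) ^ 2) ≤ ENNReal.ofReal B

/-- C0. The circle inequality. -/
def T_C0 : Prop := ∀ (A σ Λ r : ℝ) (g : ℂ → ℂ), 1 ≤ A → 0 ≤ Λ → Loc0 A σ Λ g → g 0 ≠ 0 → 0 < r →
  r ≤ 1 / 4 → IntervalIntegrable (fun θ => Real.log ‖g (circleMap 0 r θ)‖) volume
    (-(Real.pi / 2)) (Real.pi / 2) ∧
  Real.log ‖g 0‖ ≤ Real.log A / 2 + r * Λ / Real.pi + Real.pi⁻¹ *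
    ∫ θ in (-(Real.pi / 2))..(Real.pi / 2), Real.log ‖g (circleMap 0 r θ)‖

/-- SH. Shifted Poisson integrals. -/
def T_SH : Prop := ∀ (b : ℝ → ℝ) (δ : ℝ), 0 < δ → δ ≤ 1 → Measurable b →
  Integrable (fun u => poi 1 u * b u) →
  Measurable (UU 0 b δ) ∧ Integrable (fun u => poi 1 u * UU 0 b δ u) ∧
  (∀ x y : ℝ, 0 ≤ x → UU δ (UU 0 b δ) x y = UU 0 b (x + 2 * δ) y) ∧
  ∫ u, poi 1 u * |UU 0 b δ u| ≤ 2 * ∫ u, poi 1 u * |b u|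

/-- LA. Area integrals of the square of the negative part of the logarithm. -/
def T_LA : Prop := ∀ g : ℂ → ℂ, AnalyticOnNhd ℂ g (ball 0 (1 / 2)) → g 0 ≠ 0 →
  ∃ B : ℝ, ∀ δ : ℝ, 0 ≤ δ → δ ≤ 1 / 16 → ∫⁻ p in Ioo (0 : ℝ) (1 / 4) ×ˢ
    Ioo (-(Real.pi / 2)) (Real.pi / 2), ENNReal.ofReal (p.1 *
      (max (-Real.log ‖g (circleMap 0 p.1 p.2 + 2 * δ)‖) 0) ^ 2) ≤ ENNReal.ofReal B

/-- LIM. The limit `δ → 0` for averages over half circles. -/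
def T_LIM : Prop := ∀ (E V B : ℝ) (w η : ℝ → ℝ) (g : ℂ → ℂ), 1 ≤ E → Continuous w →
  (∀ r : ℝ, 0 ≤ r → 0 ≤ w r ∧ w r ≤ B * r) → HB E g → AnalyticOnNhd ℂ g (ball 0 (1 / 2)) →
  g 0 ≠ 0 → Tendsto η (𝓝[>] 0) (𝓝 0) →
  (∀ δ : ℝ, 0 < δ → δ ≤ 1 / 16 → ∫ r in (0 : ℝ)..(1 / 4), w r * (Real.pi⁻¹ *
      ∫ θ in (-(Real.pi / 2))..(Real.pi / 2), Real.log ‖g (circleMap 0 r θ + 2 * δ)‖) ≤
    V + η δ) →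
  ∫ r in (0 : ℝ)..(1 / 4), w r * (Real.pi⁻¹ *
      ∫ θ in (-(Real.pi / 2))..(Real.pi / 2), Real.log ‖g (circleMap 0 r θ)‖) ≤ V

/-- K0. The average of the logarithm over half circles. -/
def T_K0 : Prop := ∀ X : ℝ, ∃ C : ℝ, 0 ≤ C ∧ ∀ (x N m E : ℝ) (g : ℂ → ℂ), 0 < x → x ≤ X →
  1 ≤ N → 0 ≤ m → 1 ≤ E → HB E g → AnalyticOnNhd ℂ g (ball 0 (1 / 2)) → g 0 ≠ 0 →
  (∀ z : ℂ, x ≤ z.re → Real.exp (-m) ≤ ‖g z‖) →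
  ∫ r in (0 : ℝ)..(1 / 4), N * pp (N * r) * (Real.pi⁻¹ *
      ∫ θ in (-(Real.pi / 2))..(Real.pi / 2), Real.log ‖g (circleMap 0 r θ)‖) ≤
    C * Real.exp (C * N) * (UU 0 (bz g) (x + 1) 0 + 2 * m) +
      C / N ^ 2 * ∫ u, poi 1 u * |bz g u|

/-- LG. Lower bound for `f ∘ zm κ`. -/
def T_LG : Prop := ∀ (E σ κ : ℝ) (k : ℕ) (f : ℂ → ℂ), 1 ≤ E → 0 < σ → 2 ≤ κ → Hyp E σ k f →
  ∃ (K : ℝ) (N : ℕ) (ω : Fin N → ℂ), 0 ≤ K ∧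
  (∀ w : ℂ, 0 ≤ w.re → ‖w‖ ≤ Real.cosh (κ * σ) → Real.log ‖f (zm κ w)‖ < 0 →
    -K + ∑ j, Real.log ‖w - ω j‖ ≤ Real.log ‖f (zm κ w)‖) ∧
  ∀ w : ℂ, 0 ≤ w.re → Real.cosh (κ * σ) ≤ ‖w‖ → -K ≤ Real.log ‖f (zm κ w)‖

end Pool.Agent.H26.LQ
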