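import Pool.Agent.H26.LQ.Defs

/-!
# lq_modules, module ZM4
-/

set_option autoImplicit false

open MeasureTheory Set Filter Topology Metric

namespace Pool.Agent.H26.LQ

theorem sq1_unique {w S : ℂ} (hSQ : T_SQ1) (hw : ‖w‖ < 1) (hS : S ^ 2 = w ^ 2 + 1)
    (hre : 0 < S.re) : sq1 w = S := by
  have h1 : sq1 w ^ 2 = S ^ 2 := by rw [hSQ.1 w, hS]
  rcases sq_eq_sq_iff_eq_or_eq_neg.1 h1 with h | h
  · exact h
  · exfalso
    have h2 := hSQ.2.2.2.2.2 w hw
    rw [h, Complex.neg_re] at h2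
    linarith

theorem pf_zm4 (hSQ : T_SQ1) (hZM2 : T_ZM2) : T_ZM4 := by
  intro κ w hκ hw hre
  have hκ0 : 0 < κ := by linarith
  obtain ⟨⟨a1, a2, a3⟩, -⟩ := And.intro ((hZM2 κ w hκ0).1 hre) trivial
  have hw1 : ‖w‖ < 1 := by linarith
  have hSpos : 0 < (sq1 w).re := hSQ.2.2.2.2.2 w hw1
  refine ⟨?_, ?_, ?_, ?_⟩
  · have hS' : sq1 (-(starRingEnd ℂ) w) = (starRingEnd ℂ) (sq1 w) := by
      apply sq1_unique hSQ
      · simpa using hw1
      · rw [← map_pow, hSQ.1 w]
        simp
      · simpa using hSpos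
    have hmul : (w + sq1 w) * (sq1 w - w) = 1 := by linear_combination hSQ.1 w
    have hinv : (w + sq1 w)⁻¹ = sq1 w - w := inv_eq_of_mul_eq_one_right hmul
    have harg : (w + sq1 w).arg ≠ Real.pi := by
      intro h
      have := (Complex.arg_eq_pi_iff.1 h).1
      rw [Complex.add_re] at this
      linarith
    have harg2 : ((w + sq1 w)⁻¹).arg ≠ Real.pi := by
      rw [Complex.arg_inv, if_neg harg]
      intro h
      have := Complex.neg_pi_lt_arg (w + sq1 w)
      linarith
    unfold zm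
    have e1 : -(starRingEnd ℂ) w + sq1 (-(starRingEnd ℂ) w) =
        (starRingEnd ℂ) ((w + sq1 w)⁻¹) := by
      rw [hS', hinv, map_sub]
      ring
    rw [e1, Complex.log_conj _ harg2, Complex.log_inv _ harg, map_div₀, map_neg,
      Complex.conj_ofReal, neg_div]
  · have hb : ((κ : ℂ) * zm κ w) = (κ * (zm κ w).re : ℝ) + (κ * (zm κ w).im : ℝ) * Complex.I := by
      apply Complex.ext <;> simp
    rw [hb, Complex.sinh_add, Complex.sinh_mul_I, Complex.cosh_mul_I, ← Complex.ofReal_sinh,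
      ← Complex.ofReal_cosh, ← Complex.ofReal_cos, ← Complex.ofReal_sin] at a3
    have r1 := congrArg Complex.re a3
    have r2 := congrArg Complex.im a3
    simp only [Complex.add_re, Complex.mul_re, Complex.ofReal_re, Complex.ofReal_im,
      Complex.I_re, Complex.I_im, Complex.mul_im, Complex.add_im] at r1 r2
    ring_nf at r1 r2
    have hp : 0 ≤ κ * (zm κ w).re := by positivity
    have hs : |κ * (zm κ w).im| ≤ Real.pi / 2 := by
      rw [abs_mul, abs_of_pos hκ0]
      calc κ * |(zm κ w).im| ≤ κ * (Real.pi / (2 * κ)) := mul_le_mul_of_nonneg_left a2 hκ0.le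
        _ = Real.pi / 2 := by field_simp
    have him : |w.im| ≤ 1 / 2 := (Complex.abs_im_le_norm w).trans hw
    have hcosh : 1 ≤ Real.cosh (κ * (zm κ w).re) := Real.one_le_cosh _
    have hsin : |Real.sin (κ * (zm κ w).im)| ≤ 1 / 2 := by
      have h1 : |w.im| = Real.cosh (κ * (zm κ w).re) * |Real.sin (κ * (zm κ w).im)| := by
        rw [← r2, abs_mul, abs_of_pos (lt_of_lt_of_le one_pos hcosh)]
      nlinarith [abs_nonneg (Real.sin (κ * (zm κ w).im))]
    have hcos0 : 0 ≤ Real.cos (κ * (zm κ w).im) := by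
      apply Real.cos_nonneg_of_neg_pi_div_two_le_of_le
      · linarith [(abs_le.1 hs).1]
      · exact (abs_le.1 hs).2
    have hcos : 1 / 2 ≤ Real.cos (κ * (zm κ w).im) := by
      have h1 := Real.sin_sq_add_cos_sq (κ * (zm κ w).im)
      have h2 : Real.sin (κ * (zm κ w).im) ^ 2 ≤ (1 / 2) ^ 2 := by
        rw [← sq_abs]
        exact pow_le_pow_left₀ (abs_nonneg _) hsin 2
      nlinarith
    have hsinh : κ * (zm κ w).re ≤ Real.sinh (κ * (zm κ w).re) := Real.self_le_sinh_iff.2 hp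
    have hsinh0 : 0 ≤ Real.sinh (κ * (zm κ w).re) := Real.sinh_nonneg_iff.2 hp
    have h3 : Real.sinh (κ * (zm κ w).re) * (1 / 2) ≤ w.re := by
      rw [← r1]
      exact mul_le_mul_of_nonneg_left hcos hsinh0
    nlinarith
  · calc |(zm κ w).im| ≤ Real.pi / (2 * κ) := a2
      _ ≤ 1 := by
        rw [div_le_one (by positivity)]
        nlinarith [Real.pi_le_four]
  · have h0 : sq1 0 = 1 := by
      apply sq1_unique hSQ
      · simp
      · simp
      · simp
    unfold zm
    rw [h0]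
    simp

end Pool.Agent.H26.LQ
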