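import Pool.Agent.H26.LQ.Crit
import Pool.Agent.H26.LQ.ZM4
import Pool.Agent.H26.ZQ.GR
import Pool.Agent.H26.MQ.All
import Pool.Agent.H48.ZQ.CIR
import Pool.Agent.H86.ZQ.FLO
import Pool.Agent.H86.ZQ.HE
import Pool.Agent.H16.ZQ.JU
import Pool.Agent.H66.ZQ.SEP
import Pool.Agent.H66.ZQ.ZC
import Pool.Agent.H86.ZQ.SQ
import Pool.Agent.H89.ZQ.UNI
import Pool.Agent.H65.ZQ.LB
import Pool.Agent.H94.LQ.C0
import Pool.Agent.H94.LQ.E0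
import Pool.Agent.H94.LQ.LA
import Pool.Agent.H94.LQ.LG
import Pool.Agent.H60.LQ.J0
import Pool.Agent.H60.LQ.K0
import Pool.Agent.H85.LQ.L20
import Pool.Agent.H85.LQ.LIM
import Pool.Agent.H54.LQ.P0
import Pool.Agent.H99.LQ.SH
import Pool.Agent.H14.LQ.SQ1
import Pool.Agent.H14.LQ.ZM1
import Pool.Agent.H84.LQ.ZM2
import Pool.Agent.H89.LQ.ZM5
import Pool.Agent.H2.LIM.FAC
import Pool.Agent.H47.LIM.ZF
import Pool.Agent.H66.LIM.BC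

/-! All modules of the local inequality. -/

set_option autoImplicit false

open Complex

namespace Pool.Agent.H26.LQ

open Pool.Agent.H26.ML Pool.Agent.H26.MQ Pool.Agent.H26.ZQ Pool.Agent.H23.GLM
open Pool.Agent.H23.GLH Pool.Agent.H23.DZ

theorem all_lb : T_LB :=
  Pool.Agent.H65.ZQ.pf_lb (Pool.Agent.H2.LIM.pf_fac Pool.Agent.H47.LIM.pf_zf Pool.Agent.H66.LIM.pf_bc)

theorem all_uni : T_UNI := Pool.Agent.H89.ZQ.pf_uni all_lb Pool.Agent.H66.ZQ.pf_sep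
  Pool.Agent.H86.ZQ.pf_sq

theorem all_he : T_HE := Pool.Agent.H86.ZQ.pf_he
  (Pool.Agent.H48.ZQ.pf_cir Pool.Agent.H66.ZQ.pf_zc all_uni) Pool.Agent.H86.ZQ.pf_flo
  Pool.Agent.H16.ZQ.pf_ju

theorem all_sq1 : T_SQ1 := Pool.Agent.H14.LQ.pf_sq1

theorem all_zm1 : T_ZM1 := Pool.Agent.H14.LQ.pf_zm1 all_sq1

theorem all_zm2 : T_ZM2 := Pool.Agent.H84.LQ.pf_zm2 all_sq1 all_zm1

theorem all_zm4 : T_ZM4 := pf_zm4 all_sq1 all_zm2

theorem all_zm5 : T_ZM5 := Pool.Agent.H89.LQ.pf_zm5 all_zm2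

theorem all_j0 : T_J0 := Pool.Agent.H60.LQ.pf_j0

theorem all_p0 : T_P0 := Pool.Agent.H54.LQ.pf_p0 all_j0

theorem all_c0 : T_C0 := Pool.Agent.H94.LQ.pf_c0

theorem all_lim : T_LIM := Pool.Agent.H85.LQ.pf_lim Pool.Agent.H86.ZQ.pf_flo
  (Pool.Agent.H94.LQ.pf_la Pool.Agent.H47.LIM.pf_zf)

theorem all_k0 : T_K0 := Pool.Agent.H60.LQ.pf_k0 all_pb all_kt (Pool.Agent.H99.LQ.pf_sh all_sg)
  all_p0 all_lim

theorem all_e0 : T_E0 := Pool.Agent.H94.LQ.pf_e0 all_j0 Pool.Agent.H86.ZQ.pf_flo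
  Pool.Agent.H16.ZQ.pf_ju Pool.Agent.H66.ZQ.pf_zc

theorem all_l20 : T_L20 := Pool.Agent.H85.LQ.pf_l20 Pool.Agent.H86.ZQ.pf_sq

theorem all_lg : T_LG := Pool.Agent.H94.LQ.pf_lg all_lb all_zm2 all_zm5

/-- **The local inequality, the mollified means and the equivalences.** -/
theorem final (m : ℕ) (S : Set (LData m)) (hm : 1 ≤ m) (hM : Molteni S) (hF : FarBounds S)
    (h : ℝ) (hh : 0 < h) :
    (∃ A : ℝ, 1 ≤ A ∧ ∀ π ∈ S, ∀ t : ℝ, Summable (locTerm π.L h t) ∧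
      locDisp π.L h t ≤ A * Real.log (2 * π.X t) ∧
      ‖π.L (1 / 2 + t * I)‖ ≤ Real.exp (A * Real.log (2 * π.X t) /
        Real.log (2 + Real.log (2 * π.X t) / (1 + locDisp π.L h t)))) ∧
    ∃ c₀ : ℝ, 0 < c₀ ∧ ∀ c : ℝ, c₀ ≤ c →
      (∃ A : ℝ, 1 ≤ A ∧ ∀ π ∈ S, ∀ (t : ℝ) (M : ℂ → ℂ), Multiplier M →
        M (1 / 2 + c + t * I) ≠ 0 → locDisp π.L h t ≤
          A * (A + logMean (fun s => π.L s * M s) c t - Real.log ‖M (1 / 2 + c + t * I)‖)) ∧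
      List.TFAE [
        GLH S,
        SmallLocDisp S h,
        SmallMeans S c,
        Mollifiable S c,
        ∀ R ε : ℝ, 0 < R → 0 < ε → LogMeans S R ε,
        ∀ ε : ℝ, 0 < ε → ∃ R : ℝ, 0 < R ∧ LogMeans S R (ε * min 1 R),
        Mollified S] :=
  final_of all_he pf_gr all_pb all_jp all_sg all_kt all_zm1 all_zm2 all_zm4 all_zm5 all_p0 all_c0
    all_k0 all_e0 all_l20 all_lg m S hm hM hF h hh

end Pool.Agent.H26.LQ
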