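import Pool.Agent.H26.LQ.App2
import Pool.Agent.H26.ZQ.Main

/-! The local inequality. -/

set_option autoImplicit false

open MeasureTheory Set Filter Topology Complex Metric

namespace Pool.Agent.H26.LQ

open Pool.Agent.H26.ML Pool.Agent.H26.MQ Pool.Agent.H26.ZQ Pool.Agent.H23.GLM
open Pool.Agent.H23.GLH Pool.Agent.H23.DZ
open Pool.Agent.H61.Ray (norm_L_F)

variable {m : ℕ}

/-- **The local inequality.** The hypothesis `hD` is the global result on the displacement. -/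
theorem loc_ineq (hPB : T_PB) (hJP : T_JP) (hGR : T_GR) (hZM1 : T_ZM1) (hZM2 : T_ZM2)
    (hZM4 : T_ZM4) (hZM5 : T_ZM5) (hP0 : T_P0) (hC0 : T_C0) (hK0 : T_K0) (hE0 : T_E0)
    (hL20 : T_L20) (hLG : T_LG) {S : Set (LData m)} (hM : Molteni S) (hF : FarBounds S)
    (hD : ∃ A : ℝ, 1 ≤ A ∧ ∀ π ∈ S, ∀ t : ℝ, Summable (dispTerm π.L t) ∧
      disp π.L t ≤ A * Real.log (2 * π.X t)) {h : ℝ} (hh : 0 < h) :
    ∃ A : ℝ, 1 ≤ A ∧ ∀ π ∈ S, ∀ t : ℝ, Summable (locTerm π.L h t) ∧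
      locDisp π.L h t ≤ A * disp π.L t ∧ locDisp π.L h t ≤ A * Real.log (2 * π.X t) ∧
      ‖π.L (1 / 2 + t * I)‖ ≤ Real.exp (A * Real.log (2 * π.X t) /
        Real.log (2 + Real.log (2 * π.X t) / (1 + locDisp π.L h t))) := by
  classical
  have hpi := Real.pi_pos
  obtain ⟨A₀, σ, hA₀, hσ, hloc⟩ := exists_loc hM hF
  obtain ⟨σ₁, ε₁, hε₁, hfar⟩ := hF
  obtain ⟨AD, hAD, hD⟩ := hD
  -- the width
  obtain ⟨κ, hκdef⟩ : ∃ κ : ℝ, κ = max 4 (Real.pi / (2 * h)) := ⟨_, rfl⟩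
  have hκ : 4 ≤ κ := by rw [hκdef]; exact le_max_left _ _
  have hκ0 : 0 < κ := by linarith
  obtain ⟨h', hh'⟩ : ∃ h' : ℝ, h' = Real.pi / (2 * κ) := ⟨_, rfl⟩
  have hh'h : h' ≤ h := by
    rw [hh', div_le_iff₀ (by positivity)]
    have h1 : Real.pi / (2 * h) ≤ κ := by rw [hκdef]; exact le_max_right _ _
    rw [div_le_iff₀ (by positivity)] at h1
    linarith
  have hh'0 : 0 < h' := by rw [hh']; positivity
  -- the centre
  obtain ⟨σ', hσ'⟩ : ∃ σ' : ℝ, σ' = Real.cosh (κ * σ) := ⟨_, rfl⟩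
  have hσ'1 : 1 ≤ σ' := by rw [hσ']; exact Real.one_le_cosh _
  obtain ⟨c, hcdef⟩ : ∃ c : ℝ, c = max (σ' + 2) (Real.cosh (κ * max σ₁ 1)) := ⟨_, rfl⟩
  have hcσ : σ' + 2 ≤ c := by rw [hcdef]; exact le_max_left _ _
  have hc0 : 0 < c := by linarith
  obtain ⟨C₁, hC₁, hG⟩ := hGR c σ' (by linarith) (by linarith)
  obtain ⟨A', hA'⟩ : ∃ A' : ℝ, A' = A₀ * 2 ^ m := ⟨_, rfl⟩
  have hA'1 : 1 ≤ A' := by
    rw [hA']; exact one_le_mul_of_one_le_of_one_le hA₀ (one_le_pow₀ (by norm_num))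
  obtain ⟨C, hC1, hC⟩ := main0 hPB hJP hP0 hC0 hK0 hA'1 (by linarith : 0 < σ') hcσ
  have hlA₀ : 0 ≤ Real.log A₀ := Real.log_nonneg hA₀
  obtain ⟨B, hBdef⟩ : ∃ B : ℝ, B = |Real.log (ε₁⁻¹)| := ⟨_, rfl⟩
  have hB0 : 0 ≤ B := by rw [hBdef]; exact abs_nonneg _
  obtain ⟨G, hGdef⟩ : ∃ G : ℝ, G = C₁ * (κ * σ') := ⟨_, rfl⟩
  have hG0 : 0 ≤ G := by rw [hGdef]; positivity
  obtain ⟨D₀, hD₀⟩ : ∃ D₀ : ℝ, D₀ = C + B + G + Real.log A₀ + 3 := ⟨_, rfl⟩
  have hD₀1 : 1 ≤ D₀ := by linarith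
  obtain ⟨q, hq⟩ : ∃ q : ℝ, q = 1 + Real.log D₀ / Real.log 2 := ⟨_, rfl⟩
  have hl2 : 0 < Real.log 2 := Real.log_pos (by norm_num)
  have hq1 : 1 ≤ q := by
    have : 0 ≤ Real.log D₀ := Real.log_nonneg hD₀1
    rw [hq]
    have : 0 ≤ Real.log D₀ / Real.log 2 := by positivity
    linarith
  obtain ⟨E, hE⟩ : ∃ E : ℝ, E = 1 + σ ^ 2 + h ^ 2 := ⟨_, rfl⟩
  have hE1 : 1 ≤ E := by rw [hE]; nlinarith [sq_nonneg σ, sq_nonneg h]
  have hEAD : 1 ≤ E * AD := one_le_mul_of_one_le_of_one_le hE1 hAD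
  have h8q : 0 ≤ 8 * D₀ ^ 2 * q := by positivity
  refine ⟨E * AD + 8 * D₀ ^ 2 * q, by linarith, fun π hπ t => ?_⟩
  obtain ⟨hsD, hDX⟩ := hD π hπ t
  have hX1 := π.one_le_X t
  have hX0 : 0 < π.X t := by linarith
  have hΛ : 0 ≤ Real.log (π.X t) := Real.log_nonneg hX1
  have hlog2X0 : 0 ≤ Real.log (2 * π.X t) := Real.log_nonneg (by linarith)
  have hl := hloc π hπ t
  have hle : ∀ ρ, locTerm π.L h t ρ ≤ E * dispTerm π.L t ρ := fun ρ => by
    rw [hE]; exact locTerm_le hA₀ hσ hl ρ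
  have hsum : Summable (locTerm π.L h t) :=
    Summable.of_nonneg_of_le (fun ρ => locTerm_nonneg _ _ _ _) hle (hsD.mul_left E)
  have hsum' : Summable (locTerm π.L h' t) :=
    Summable.of_nonneg_of_le (fun ρ => locTerm_nonneg _ _ _ _) (fun ρ => locTerm_mono hh'h ρ) hsum
  have hDh : locDisp π.L h t ≤ E * disp π.L t := by
    unfold locDisp disp
    rw [← tsum_mul_left]
    exact hsum.tsum_le_tsum hle (hsD.mul_left E)
  have hDh' : locDisp π.L h' t ≤ locDisp π.L h t :=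
    hsum'.tsum_le_tsum (fun ρ => locTerm_mono hh'h ρ) hsum
  have hL0 : 0 ≤ locDisp π.L h' t := tsum_nonneg fun ρ => locTerm_nonneg _ _ _ _
  have hL0h : 0 ≤ locDisp π.L h t := hL0.trans hDh'
  have hdisp0 : 0 ≤ disp π.L t := tsum_nonneg fun ρ => dispTerm_nonneg _ _ _
  have hEA : E ≤ E * AD + 8 * D₀ ^ 2 * q := by
    have : E ≤ E * AD := le_mul_of_one_le_right (by linarith) hAD
    linarith
  refine ⟨hsum, hDh.trans (by gcongr), ?_, ?_⟩
  · calc locDisp π.L h t ≤ E * disp π.L t := hDh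
      _ ≤ E * (AD * Real.log (2 * π.X t)) := by gcongr
      _ = E * AD * Real.log (2 * π.X t) := by ring
      _ ≤ _ := by
        gcongr
        linarith
  -- the inequality
  have h0 := loc0_of_loc hZM1 hZM2 hZM4 hZM5 hA₀ hΛ hσ hκ hl
  rw [← hA', ← hσ'] at h0
  obtain ⟨hP1, hmain⟩ := hC _ _ hΛ h0
  -- the mean
  have hfc : Real.log ‖π.F (1 / 2 + t * I + zm κ c)‖ ≤ B := by
    have h1 : max σ₁ 1 ≤ (zm κ c).re := by
      refine (hZM5 κ (max σ₁ 1) hκ0 (lt_of_lt_of_le one_pos (le_max_right _ _))).1 c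
        (by simp; linarith) ?_
      rw [Complex.norm_real, Real.norm_of_nonneg hc0.le, hcdef]
      exact le_max_right _ _
    have h2 : σ₁ ≤ (zm κ c).re := (le_max_left _ _).trans h1
    have h3 : 1 ≤ (zm κ c).re := (le_max_right _ _).trans h1
    have h4 : (1 / 2 + t * I + zm κ c : ℂ).re = 1 / 2 + (zm κ c).re := by simp
    have h5 := norm_F_le_L π (s := 1 / 2 + t * I + zm κ c) (by rw [h4]; linarith)
    have h6 := (hfar π hπ (1 / 2 + t * I + zm κ c) (by rw [h4]; linarith)).2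
    rcases (norm_nonneg (π.F (1 / 2 + t * I + zm κ c))).eq_or_lt with h7 | h7
    · rw [← h7, Real.log_zero]; exact hB0
    · rw [hBdef]
      exact (Real.log_le_log h7 (h5.trans h6)).trans (le_abs_self _)
  have hmean := mean_le_locDisp hZM1 hZM2 hZM4 hZM5 hE0 hL20 hLG hA₀ hΛ hσ hκ
    (c := c) (by rw [← hσ']; linarith) (by linarith : 0 ≤ C₁)
    (fun z hz hzσ => (hG z hz).2 (by rw [hσ']; exact hzσ)) hl
    (by rw [← hh']; exact hsum') hfc
  rw [← hh', ← hσ', ← hGdef] at hmean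
  obtain ⟨P, hPdef⟩ : ∃ P : ℝ, P = Real.pi⁻¹ *
    (∫ u, poi c u * bz (fun w => π.F (1 / 2 + t * I + zm κ w)) u) := ⟨_, rfl⟩
  rw [← hPdef] at hmean hP1 hmain
  have hPD : C + P ≤ D₀ * (1 + locDisp π.L h t) - Real.log A₀ - 3 := by
    have h1 : G * locDisp π.L h' t ≤ G * locDisp π.L h t := by gcongr
    have h2 : D₀ * (1 + locDisp π.L h t) =
        D₀ + G * locDisp π.L h t + (D₀ - G) * locDisp π.L h t := by ring
    have h3 : 0 ≤ (D₀ - G) * locDisp π.L h t := by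
      have : 0 ≤ D₀ - G := by linarith
      positivity
    linarith
  obtain ⟨Q, hQ⟩ : ∃ Q : ℝ, Q = C + P + 2 := ⟨_, rfl⟩
  have hQ1 : 1 ≤ Q := by linarith
  have hQD : Q ≤ D₀ * (1 + locDisp π.L h t) := by linarith
  have hlog2X : Real.log (2 * π.X t) = Real.log 2 + Real.log (π.X t) := by
    rw [Real.log_mul (by norm_num) hX0.ne']
  rcases (norm_nonneg (π.L (1 / 2 + t * I))).eq_or_lt with hz | hz
  · rw [← hz]; exact (Real.exp_pos _).le
  rw [← Real.log_le_iff_le_exp hz]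
  have hFL2 := norm_L_F π (s := 1 / 2 + t * I) (by simp; norm_num) (by simp; norm_num)
  have hF0 : 0 < ‖π.F (1 / 2 + t * I)‖ := by
    by_contra hcon
    push Not at hcon
    have h2 := hFL2.2
    linarith
  have hlog7 : Real.log 7 ≤ 2 := by
    rw [Real.log_le_iff_le_exp (by norm_num)]
    have h9 : (2.7 : ℝ) ≤ Real.exp 1 := by linarith [Real.exp_one_gt_d9]
    have h10 : Real.exp 2 = Real.exp 1 * Real.exp 1 := by rw [← Real.exp_add]; norm_num
    have h11 : (2.7 : ℝ) * 2.7 ≤ Real.exp 1 * Real.exp 1 := by gcongr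
    rw [h10]
    linarith
  have hLF : Real.log ‖π.L (1 / 2 + t * I)‖ ≤ 2 + Real.log ‖π.F (1 / 2 + t * I)‖ := by
    have h1 := Real.log_le_log hz hFL2.2
    rw [Real.log_mul (by norm_num) hF0.ne'] at h1
    linarith
  have hzm0 : zm κ 0 = 0 := (hZM4 κ 0 (by linarith) (by simp) (by simp)).2.2.2
  have hopt : Real.log ‖π.L (1 / 2 + t * I)‖ ≤ 8 * D₀ ^ 2 * (Real.log 2 + Real.log (π.X t)) /
      Real.log (2 + (Real.log 2 + Real.log (π.X t)) / Q) := by
    refine optimise hD₀1 hΛ hQ1 (fun N hN => ?_) ?_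
    · have h1 := hmain N hN
      simp only [hzm0, add_zero] at h1
      rw [← Real.log_le_iff_le_exp hF0] at h1
      have hN0 : 0 < N := by linarith
      have hCD : C ≤ D₀ := by linarith
      have h2 : C * (Real.log (π.X t) + 1) / N ≤ D₀ * (Real.log (π.X t) + 1) / N := by gcongr
      have h3 : Real.exp (C * N) * (C + P) ≤ Real.exp (D₀ * N) * (C + P) :=
        mul_le_mul_of_nonneg_right (Real.exp_le_exp.mpr (mul_le_mul_of_nonneg_right hCD hN0.le))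
          (by linarith)
      have h4 : 1 ≤ Real.exp (D₀ * N) := Real.one_le_exp (by positivity)
      have h5 : Real.exp (D₀ * N) * (C + P) + 2 ≤ Real.exp (D₀ * N) * Q := by
        rw [hQ, mul_add (Real.exp (D₀ * N)) (C + P) 2]
        linarith
      linarith
    · have h1 := hl.log_le hA₀ hΛ (z := 0) (by simp)
      unfold be at h1
      simp only [add_zero, Complex.zero_im, abs_zero, Real.log_one, mul_zero] at h1
      have h2 : D₀ * (Real.log (π.X t) + 1) = D₀ * Real.log (π.X t) + D₀ := by ring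
      have h3 : Real.log (π.X t) ≤ D₀ * Real.log (π.X t) := le_mul_of_one_le_left hΛ hD₀1
      linarith
  refine hopt.trans ?_
  rw [← hlog2X]
  refine (mono_arith (A := 8 * D₀ ^ 2) (by positivity) hD₀1 hL0h hlog2X0 hQ1 hQD).trans ?_
  rw [← hq]
  have h7 : 0 < Real.log (2 + Real.log (2 * π.X t) / (1 + locDisp π.L h t)) :=
    Real.log_pos (by
      have : 0 ≤ Real.log (2 * π.X t) / (1 + locDisp π.L h t) := by positivity
      linarith)
  gcongr
  linarith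

end Pool.Agent.H26.LQ
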