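import Pool.Agent.H26.LQ.Defs
import Pool.Agent.H26.MQ.Main3

/-! The main inequality for bounded functions in the half plane. -/

set_option autoImplicit false

open MeasureTheory Set Filter Topology Complex Metric

namespace Pool.Agent.H26.LQ

open Pool.Agent.H26.ML Pool.Agent.H26.MQ

/-- The half circle integral of the logarithm. -/
noncomputable def hc (g : ℂ → ℂ) (r : ℝ) : ℝ :=
  Real.pi⁻¹ * ∫ θ in (-(Real.pi / 2))..(Real.pi / 2), Real.log ‖g (circleMap 0 r θ)‖

lemma circle_re_nonneg {r θ : ℝ} (hr : 0 ≤ r) (hθ : θ ∈ Icc (-(Real.pi / 2)) (Real.pi / 2)) :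
    0 ≤ (circleMap 0 r θ).re := by
  have h1 : (circleMap 0 r θ).re = r * Real.cos θ := by
    rw [circleMap, zero_add, Complex.re_ofReal_mul, Complex.exp_ofReal_mul_I_re]
  rw [h1]
  have := Real.cos_nonneg_of_mem_Icc hθ
  positivity

/-- Measurability of the half circle integral in the radius. -/
lemma hc_meas {g : ℂ → ℂ} (hg : ContinuousOn g {z | 0 ≤ z.re}) :
    AEStronglyMeasurable (hc g) (volume.restrict (Ioc (0 : ℝ) (1 / 4))) := by
  have hπ := Real.pi_pos
  unfold hc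
  simp_rw [intervalIntegral.integral_of_le (show -(Real.pi / 2) ≤ Real.pi / 2 by linarith)]
  have h1 : ContinuousOn (fun p : ℝ × ℝ => ‖g (circleMap 0 p.1 p.2)‖)
      (Ioc (0 : ℝ) (1 / 4) ×ˢ Ioc (-(Real.pi / 2)) (Real.pi / 2)) := by
    have h2 : Continuous fun p : ℝ × ℝ => circleMap 0 p.1 p.2 := by
      unfold circleMap
      fun_prop
    refine (hg.comp h2.continuousOn fun p hp => ?_).norm
    exact circle_re_nonneg hp.1.1.le (Ioc_subset_Icc_self hp.2)
  have h2 : AEStronglyMeasurable (fun p : ℝ × ℝ => Real.log ‖g (circleMap 0 p.1 p.2)‖)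
      ((volume.restrict (Ioc (0 : ℝ) (1 / 4))).prod
        (volume.restrict (Ioc (-(Real.pi / 2)) (Real.pi / 2)))) := by
    rw [Measure.prod_restrict]
    have h3 := h1.aestronglyMeasurable (μ := (volume : Measure ℝ).prod (volume : Measure ℝ))
      (measurableSet_Ioc.prod measurableSet_Ioc)
    exact (Real.measurable_log.comp_aemeasurable h3.aemeasurable).aestronglyMeasurable
  exact h2.integral_prod_right'.const_mul _

/-- Averaging an inequality. -/
lemma avg_ineq0 {w H : ℝ → ℝ} (hw : Continuous w) (hwn : ∀ r : ℝ, 0 ≤ r → 0 ≤ w r)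
    (hm : AEStronglyMeasurable H (volume.restrict (Ioc (0 : ℝ) (1 / 4)))) {L a b U : ℝ}
    (h : ∀ r : ℝ, 0 < r → r ≤ 1 / 4 → L ≤ a + r * b + H r)
    (hU : ∀ r : ℝ, 0 < r → r ≤ 1 / 4 → H r ≤ U) :
    (∫ r in (0 : ℝ)..(1 / 4), w r) * L ≤ (∫ r in (0 : ℝ)..(1 / 4), w r) * a +
      b * (∫ r in (0 : ℝ)..(1 / 4), w r * r) + ∫ r in (0 : ℝ)..(1 / 4), w r * H r := by
  have hint1 : IntervalIntegrable (fun r => w r * a) volume 0 (1 / 4) :=
    (hw.mul continuous_const).intervalIntegrable _ _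
  have hint2 : IntervalIntegrable (fun r => b * (w r * r)) volume 0 (1 / 4) :=
    (continuous_const.mul (hw.mul continuous_id)).intervalIntegrable _ _
  obtain ⟨D, hD⟩ : ∃ D : ℝ, D = |U| + |L| + |a| + |b| := ⟨_, rfl⟩
  have hbd : ∀ r : ℝ, 0 < r → r ≤ 1 / 4 → |H r| ≤ D := by
    intro r hr hr4
    have h1 := h r hr hr4
    have h2 := hU r hr hr4
    have h3 : r * b ≤ |b| := by
      refine (le_abs_self _).trans ?_
      rw [abs_mul, abs_of_pos hr]
      have := abs_nonneg b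
      nlinarith
    rw [abs_le, hD]
    have h4 := neg_abs_le L
    have h5 := le_abs_self a
    have h6 := le_abs_self U
    have h7 := abs_nonneg U
    have h8 := abs_nonneg L
    have h9 := abs_nonneg a
    have h10 := abs_nonneg b
    constructor <;> linarith
  have hint3 : IntervalIntegrable (fun r => w r * H r) volume 0 (1 / 4) := by
    rw [intervalIntegrable_iff_integrableOn_Ioc_of_le (by norm_num)]
    have h1 : IntegrableOn (fun r => w r * D) (Ioc 0 (1 / 4)) := by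
      rw [← intervalIntegrable_iff_integrableOn_Ioc_of_le (by norm_num)]
      exact (hw.mul continuous_const).intervalIntegrable _ _
    refine Integrable.mono' h1 (hw.aestronglyMeasurable.mul hm) ?_
    filter_upwards [ae_restrict_mem measurableSet_Ioc] with r hr
    rw [norm_mul, Real.norm_of_nonneg (hwn r hr.1.le), Real.norm_eq_abs]
    have := hwn r hr.1.le
    have := hbd r hr.1 hr.2
    gcongr
  rw [← intervalIntegral.integral_mul_const, ← intervalIntegral.integral_mul_const,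
    ← intervalIntegral.integral_const_mul, ← intervalIntegral.integral_add hint1 hint2,
    ← intervalIntegral.integral_add (hint1.add hint2) hint3]
  refine intervalIntegral.integral_mono_on_of_le_Ioo (by norm_num)
    ((hw.mul continuous_const).intervalIntegrable _ _) ((hint1.add hint2).add hint3) ?_
  intro r hr
  have h1 := h r hr.1 hr.2.le
  have h2 := hwn r hr.1.le
  calc w r * L ≤ w r * (a + r * b + H r) := by gcongr
    _ = _ := by ring

section

variable {A σ Λ c : ℝ} {g : ℂ → ℂ}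

lemma Loc0.ne_far (h : Loc0 A σ Λ g) {z : ℂ} (hz : σ ≤ z.re) : g z ≠ 0 := by
  intro h0
  have h1 := h.far z hz
  rw [h0, norm_zero, mul_zero] at h1
  linarith

lemma Loc0.log_far (h : Loc0 A σ Λ g) (hA : 1 ≤ A) {z : ℂ} (hz : σ ≤ z.re) :
    -Real.log A ≤ Real.log ‖g z‖ := by
  have h1 := h.far z hz
  have h2 : 0 < ‖g z‖ := norm_pos_iff.mpr (h.ne_far hz)
  rw [neg_le_iff_add_nonneg, ← Real.log_mul h2.ne' (by linarith), mul_comm]
  exact Real.log_nonneg h1

lemma one_le_E0 (hA : 1 ≤ A) (hΛ : 0 ≤ Λ) : 1 ≤ A * Real.exp Λ :=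
  one_le_mul_of_one_le_of_one_le hA (Real.one_le_exp hΛ)

lemma Loc0.log_le (h : Loc0 A σ Λ g) (hA : 1 ≤ A) (hΛ : 0 ≤ Λ) {z : ℂ} (hz : 0 ≤ z.re) :
    Real.log ‖g z‖ ≤ Real.log A + Λ := by
  have hlA : 0 ≤ Real.log A := Real.log_nonneg hA
  rcases (norm_nonneg (g z)).eq_or_lt with h0 | h0
  · rw [← h0, Real.log_zero]
    linarith
  · have h1 := Real.log_le_log h0 (h.hb.bdd z hz)
    rwa [Real.log_mul (by linarith) (Real.exp_pos _).ne', Real.log_exp] at h1

/-- The mean, its lower bound and the absolute integral. -/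
lemma Loc0.basics (hP0 : T_P0) (h : Loc0 A σ Λ g) (hA : 1 ≤ A) (hΛ : 0 ≤ Λ) (hσ : 0 < σ)
    (hc : σ + 2 ≤ c) :
    Real.pi⁻¹ * (∫ u, poi c u * bz g u) = UU 0 (bz g) c 0 ∧
      -Real.log A ≤ Real.pi⁻¹ * ∫ u, poi c u * bz g u ∧
      ∫ u, poi 1 u * |bz g u| ≤ (c + 1 / c) * (Real.pi * (3 * Real.log A + 2)) * (Λ + 1) := by
  have hπ := Real.pi_pos
  have hc0 : 0 < c := by linarith
  have hlA : 0 ≤ Real.log A := Real.log_nonneg hA
  obtain ⟨hb, hi, hmaj⟩ := hP0 _ g (one_le_E0 hA hΛ) h.hb ⟨c, by simpa using hc0,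
    h.ne_far (by simp; linarith)⟩
  have e1 : Real.pi⁻¹ * (∫ u, poi c u * bz g u) = UU 0 (bz g) c 0 := by
    unfold UU
    congr 1
    refine integral_congr_ae ?_
    filter_upwards with u
    rw [zero_sub, poi_even, add_zero]
  have hcc : ((c : ℝ) : ℂ) + ((0 : ℝ) : ℂ) * I = (c : ℂ) := by simp
  have hne : g ((c : ℂ) + ((0 : ℝ) : ℂ) * I) ≠ 0 := by
    rw [hcc]; exact h.ne_far (by simp; linarith)
  have hlow : -Real.log A ≤ Real.pi⁻¹ * ∫ u, poi c u * bz g u := by
    rw [e1]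
    refine (h.log_far hA (z := (c : ℂ) + ((0 : ℝ) : ℂ) * I) ?_).trans (hmaj c 0 hc0 hne)
    rw [hcc]; simp; linarith
  refine ⟨e1, hlow, ?_⟩
  have hic : Integrable fun u => poi c u * bz g u := by
    have := UU_integrable hb hi hc0 0
    refine this.congr ?_
    filter_upwards with u
    rw [zero_sub, poi_even]
  have hbe : ∀ u : ℝ, bz g u ≤ Real.log A + Λ := fun u => h.log_le hA hΛ (by simp)
  have hbe0 : 0 ≤ Real.log A + Λ := by linarith
  have habs : ∀ u, |bz g u| ≤ 2 * (Real.log A + Λ) - bz g u := by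
    intro u
    have h1 := hbe u
    rcases abs_cases (bz g u) with ⟨h3, _⟩ | ⟨h3, _⟩ <;> rw [h3] <;> linarith
  have hI1 : ∫ u, poi c u * |bz g u| ≤
      2 * (Real.log A + Λ) * Real.pi - ∫ u, poi c u * bz g u := by
    have hp := (poi_integrable hc0).const_mul (2 * (Real.log A + Λ))
    rw [← poi_integral hc0, ← integral_const_mul, ← integral_sub hp hic]
    refine integral_mono ?_ (hp.sub hic) fun u => ?_
    · refine hic.abs.congr ?_
      filter_upwards with u
      rw [abs_mul, abs_of_pos (poi_pos hc0 u)]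
    · have h1 := habs u
      have h2 := poi_pos hc0 u
      simp only
      nlinarith
  have hI2 : -(Real.pi * Real.log A) ≤ ∫ u, poi c u * bz g u := by
    rw [← div_eq_inv_mul, le_div_iff₀ hπ] at hlow
    linarith
  have hI3 : ∫ u, poi 1 u * |bz g u| ≤ (c + 1 / c) * ∫ u, poi c u * |bz g u| := by
    rw [← integral_const_mul]
    have e1 : Integrable fun u => poi c u * |bz g u| := by
      refine hic.abs.congr ?_
      filter_upwards with u
      rw [abs_mul, abs_of_pos (poi_pos hc0 u)]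
    refine integral_mono ?_ (e1.const_mul _) fun u => ?_
    · refine hi.abs.congr ?_
      filter_upwards with u
      rw [abs_mul, abs_of_pos (poi_pos one_pos u)]
    · have h1 := poi_one_le (u := u) hc0
      have h4 := abs_nonneg (bz g u)
      simp only
      rw [← mul_assoc]
      gcongr
  refine hI3.trans ?_
  rw [mul_assoc]
  have h5 : 0 < 1 / c := by positivity
  refine mul_le_mul_of_nonneg_left ?_ (by linarith)
  have h6 : 0 ≤ Λ * Real.log A := by positivity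
  nlinarith [mul_nonneg hπ.le h6]

/-- The main inequality for `N ≥ 24`. -/
theorem main0_24 (hPB : T_PB) (hJP : T_JP) (hP0 : T_P0) (hC0 : T_C0) (hK0 : T_K0) {A σ c : ℝ}
    (hA : 1 ≤ A) (hσ : 0 < σ) (hc : σ + 2 ≤ c) : ∃ C : ℝ, 1 ≤ C ∧ ∀ (Λ : ℝ) (g : ℂ → ℂ), 0 ≤ Λ →
      Loc0 A σ Λ g → 1 ≤ C + Real.pi⁻¹ * ∫ u, poi c u * bz g u ∧ ∀ N : ℝ, 24 ≤ N →
        0 < Real.log ‖g 0‖ → Real.log ‖g 0‖ ≤ C * (Λ + 1) / N +
          Real.exp (C * N) * (C + Real.pi⁻¹ * ∫ u, poi c u * bz g u) := by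
  have hπ := Real.pi_pos
  have hc0 : 0 < c := by linarith
  have hlA : 0 ≤ Real.log A := Real.log_nonneg hA
  have hI1 := I1_nonneg hPB
  obtain ⟨Ck, hCk0, hCk⟩ := hK0 c
  obtain ⟨K5, hK5⟩ : ∃ K5 : ℝ, K5 = 2 * Real.log A + 1 := ⟨_, rfl⟩
  obtain ⟨K7, hK7⟩ : ∃ K7 : ℝ, K7 = (c + 1 / c) * (Real.pi * (3 * Real.log A + 2)) := ⟨_, rfl⟩
  have hK70 : 0 ≤ K7 := by rw [hK7]; positivity
  obtain ⟨C, hC⟩ : ∃ C : ℝ, C = 2 * I1 / Real.pi + 2 * Ck * K7 + K5 + Real.log A + 3 * Ck + 1 :=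
    ⟨_, rfl⟩
  have hI1π : 0 ≤ 2 * I1 / Real.pi := by positivity
  have hCK : 0 ≤ 2 * Ck * K7 := by positivity
  refine ⟨C, by linarith, fun Λ g hΛ hg => ?_⟩
  obtain ⟨hUU, hPge, hI⟩ := hg.basics hP0 hA hΛ hσ hc
  refine ⟨by linarith, fun N hN hL0 => ?_⟩
  have hN0 : 0 < N := by linarith
  have hg0 : g 0 ≠ 0 := by
    intro h0
    rw [h0, norm_zero, Real.log_zero] at hL0
    exact lt_irrefl _ hL0
  have hppc : Continuous pp := hPB.2.2.2.2.1
  have hw : Continuous fun r : ℝ => N * pp (N * r) := by fun_prop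
  have hwn : ∀ r : ℝ, 0 ≤ r → 0 ≤ N * pp (N * r) := by
    intro r hr
    have := hPB.1 (N * r) (by positivity)
    positivity
  obtain ⟨hW1, hW2⟩ := mass hPB hJP hN
  have hV := moment hPB hN0
  have hk := hCk (c - 1) N (Real.log A) (A * Real.exp Λ) g (by linarith) (by linarith)
    (by linarith) hlA (one_le_E0 hA hΛ) hg.hb hg.an hg0 (fun z hz => by
      have h1 := hg.log_far hA (z := z) (by linarith)
      have h2 : 0 < ‖g z‖ := norm_pos_iff.mpr (hg.ne_far (by linarith))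
      rwa [Real.le_log_iff_exp_le h2] at h1)
  rw [sub_add_cancel, ← hUU] at hk
  have hcirc : ∀ r : ℝ, 0 < r → r ≤ 1 / 4 →
      Real.log ‖g 0‖ ≤ Real.log A / 2 + r * (Λ / Real.pi) + LQ.hc g r := by
    intro r hr hr4
    have h1 := (hC0 A σ Λ r g hA hΛ hg hg0 hr hr4).2
    rw [← mul_div_assoc]
    exact h1
  have hup : ∀ r : ℝ, 0 < r → r ≤ 1 / 4 → LQ.hc g r ≤ Real.log A + Λ := by
    intro r hr hr4
    have h1 := (hC0 A σ Λ r g hA hΛ hg hg0 hr hr4).1
    have h2 : ∫ θ in (-(Real.pi / 2))..(Real.pi / 2), Real.log ‖g (circleMap 0 r θ)‖ ≤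
        ∫ _θ in (-(Real.pi / 2))..(Real.pi / 2), (Real.log A + Λ) := by
      refine intervalIntegral.integral_mono_on (by linarith) h1 (by simp) fun θ hθ => ?_
      exact hg.log_le hA hΛ (circle_re_nonneg hr.le hθ)
    rw [intervalIntegral.integral_const, smul_eq_mul] at h2
    unfold LQ.hc
    rw [← div_eq_inv_mul, div_le_iff₀ hπ]
    linarith
  have hmain := avg_ineq0 hw hwn (hc_meas hg.hb.cont) hcirc hup
  refine final_arith (J := ∫ r in (0 : ℝ)..(1 / 4), N * pp (N * r) * LQ.hc g r) hCk0 hI1 hK70 hlA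
    hΛ (by linarith) (by linarith : 1 ≤ K5 + _) hW1 hW2 hV hL0 (by linarith) hmain ?_ hC
  refine hk.trans (add_le_add (mul_le_mul_of_nonneg_left ?_ ?_)
    (mul_le_mul_of_nonneg_left ?_ ?_))
  · linarith
  · positivity
  · rw [hK7]; exact hI
  · positivity

/-- **The main inequality.** -/
theorem main0 (hPB : T_PB) (hJP : T_JP) (hP0 : T_P0) (hC0 : T_C0) (hK0 : T_K0) {A σ c : ℝ}
    (hA : 1 ≤ A) (hσ : 0 < σ) (hc : σ + 2 ≤ c) : ∃ C : ℝ, 1 ≤ C ∧ ∀ (Λ : ℝ) (g : ℂ → ℂ), 0 ≤ Λ →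
      Loc0 A σ Λ g → 1 ≤ C + Real.pi⁻¹ * ∫ u, poi c u * bz g u ∧ ∀ N : ℝ, 1 ≤ N →
        ‖g 0‖ ≤ Real.exp (C * (Λ + 1) / N +
          Real.exp (C * N) * (C + Real.pi⁻¹ * ∫ u, poi c u * bz g u)) := by
  obtain ⟨C, hC1, hC⟩ := main0_24 hPB hJP hP0 hC0 hK0 hA hσ hc
  refine ⟨24 * C, by linarith, fun Λ g hΛ hg => ?_⟩
  obtain ⟨h1, h2⟩ := hC Λ g hΛ hg
  set P : ℝ := Real.pi⁻¹ * ∫ u, poi c u * bz g u with hP
  refine ⟨by linarith, fun N hN => ?_⟩
  have hN0 : 0 < N := by linarith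
  have hR1 : 0 ≤ 24 * C * (Λ + 1) / N := by positivity
  have hR2 : 0 ≤ Real.exp (24 * C * N) * (24 * C + P) := by
    have : 0 ≤ 24 * C + P := by linarith
    positivity
  by_cases hL : 0 < Real.log ‖g 0‖
  · have hpos : 0 < ‖g 0‖ := by
      rcases (norm_nonneg (g 0)).eq_or_lt with h | h
      · rw [← h, Real.log_zero] at hL
        exact absurd hL (lt_irrefl _)
      · exact h
    rw [← Real.log_le_iff_le_exp hpos]
    have h3 := h2 (24 * N) (by linarith) hL
    have e1 : C * (24 * N) = 24 * C * N := by ring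
    rw [e1] at h3
    have h4 : C * (Λ + 1) / (24 * N) ≤ 24 * C * (Λ + 1) / N := by
      rw [div_le_div_iff₀ (by positivity) hN0]
      have : 0 ≤ C * (Λ + 1) * N := by positivity
      nlinarith
    have h5 : Real.exp (24 * C * N) * (C + P) ≤ Real.exp (24 * C * N) * (24 * C + P) := by
      gcongr
      linarith
    linarith
  · push Not at hL
    rcases (norm_nonneg (g 0)).eq_or_lt with h | h
    · rw [← h]
      exact (Real.exp_pos _).le
    · calc ‖g 0‖ = Real.exp (Real.log ‖g 0‖) := (Real.exp_log h).symm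
        _ ≤ _ := Real.exp_le_exp.mpr (by linarith)

end

end Pool.Agent.H26.LQ
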